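import Pool.Agent.helper47.SPI.Spec

set_option autoImplicit false

namespace Pool.Agent.SPI

open Finset Pool.Agent.helper85.PG

theorem ZA_prod {p : ℕ} [NeZero p] {ι : Type} (s : Finset ι) (x : ι → ZMod p) :
    (ZMod.stdAddChar (∑ i ∈ s, x i) : ℂ) = ∏ i ∈ s, (ZMod.stdAddChar (x i) : ℂ) := by
  classical
  induction s using Finset.induction_on with
  | empty => simp
  | insert a s ha ih => rw [sum_insert ha, prod_insert ha, AddChar.map_add_eq_mul, ih]

/-- The Fourier transform of the number of representations. -/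
theorem ZA_four {p : ℕ} [Fact p.Prime] (V : Finset (ZMod p)) (k : ℕ) (t : ZMod p) :
    ft univ (fun x => ((((Fintype.piFinset fun _ : Fin k => V).filter
      (fun f => ∑ i, f i = x)).card : ℝ) : ℂ)) t =
      (∑ y ∈ V, (ZMod.stdAddChar (t * y) : ℂ)) ^ k := by
  classical
  have h1 : (∑ y ∈ V, (ZMod.stdAddChar (t * y) : ℂ)) ^ k =
      ∑ f ∈ Fintype.piFinset (fun _ : Fin k => V), (ZMod.stdAddChar (t * ∑ i, f i) : ℂ) := by
    have h2 := Finset.prod_univ_sum (fun _ : Fin k => V)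
      (fun _ y => (ZMod.stdAddChar (t * y) : ℂ))
    rw [Finset.prod_const, Finset.card_univ, Fintype.card_fin] at h2
    rw [h2]
    refine sum_congr rfl fun f _ => ?_
    rw [mul_sum, ZA_prod]
  rw [h1, ← sum_fiberwise_of_maps_to (s := Fintype.piFinset (fun _ : Fin k => V)) (t := univ)
    (g := fun f => ∑ i, f i) (fun f _ => mem_univ _)]
  unfold ft
  refine sum_congr rfl fun x _ => ?_
  have h3 : ∀ f ∈ (Fintype.piFinset (fun _ : Fin k => V)).filter (fun f => ∑ i, f i = x),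
      (ZMod.stdAddChar (t * ∑ i, f i) : ℂ) = (ZMod.stdAddChar (t * x) : ℂ) := by
    intro f hf
    rw [(mem_filter.1 hf).2]
  rw [sum_congr rfl h3, sum_const, nsmul_eq_mul]
  simp only [Complex.ofReal_natCast]

theorem ZA (hPLN : PLN_stmt) : ZA_stmt := by
  classical
  intro p _ V U k hk hV hU hUp
  have hp : 0 < p := (Fact.out : p.Prime).pos
  have hp0 : (0 : ℝ) < p := by exact_mod_cast hp
  set r : ZMod p → ℝ := fun x => (((Fintype.piFinset fun _ : Fin k => V).filter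
      (fun f => ∑ i, f i = x)).card : ℝ) with hr
  have hr0 : ∀ x, 0 ≤ r x := fun x => Nat.cast_nonneg _
  have hVc : (0 : ℝ) < V.card := by exact_mod_cast hV.card_pos
  -- the mass
  have hmass : ∑ x ∈ U, r x = (V.card : ℝ) ^ k := by
    have h1 : ((Fintype.piFinset fun _ : Fin k => V).card : ℝ) = (V.card : ℝ) ^ k := by
      rw [Fintype.card_piFinset]
      simp
    rw [← h1]
    have h2 : ∀ f ∈ (Fintype.piFinset fun _ : Fin k => V), (∑ i, f i) ∈ U := by
      intro f hf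
      exact hU f (fun i => Fintype.mem_piFinset.1 hf i)
    rw [card_eq_sum_card_fiberwise h2, Nat.cast_sum]
  have hCS : ((V.card : ℝ) ^ k) ^ 2 ≤ U.card * ∑ x, r x ^ 2 := by
    rw [← hmass]
    have h1 := sq_sum_le_card_mul_sum_sq (s := U) (f := r)
    refine h1.trans (mul_le_mul_of_nonneg_left ?_ (Nat.cast_nonneg _))
    exact sum_le_sum_of_subset_of_nonneg (subset_univ _) fun x _ _ => sq_nonneg _
  have hP := hPLN p univ (fun x => ((r x : ℝ) : ℂ))
  have hft : ∀ t, ‖ft univ (fun x => ((r x : ℝ) : ℂ)) t‖ ^ 2 =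
      ‖∑ y ∈ V, (ZMod.stdAddChar (t * y) : ℂ)‖ ^ (2 * k) := by
    intro t
    rw [hr, ZA_four V k t, norm_pow, ← pow_mul, mul_comm]
  have hn : ∀ x, ‖((r x : ℝ) : ℂ)‖ ^ 2 = r x ^ 2 := by
    intro x
    rw [Complex.norm_real, Real.norm_eq_abs, sq_abs]
  simp only [hft, hn] at hP
  have hUp' : 2 * (U.card : ℝ) ≤ p := by exact_mod_cast hUp
  have hr2 : 0 ≤ ∑ x, r x ^ 2 := sum_nonneg fun x _ => sq_nonneg _
  have h0 : 2 * (V.card : ℝ) ^ (2 * k) ≤
      ∑ t : ZMod p, ‖∑ y ∈ V, (ZMod.stdAddChar (t * y) : ℂ)‖ ^ (2 * k) := by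
    rw [hP]
    have e1 : (V.card : ℝ) ^ (2 * k) = ((V.card : ℝ) ^ k) ^ 2 := by
      rw [← pow_mul, mul_comm]
    rw [e1]
    nlinarith
  have hz : ‖∑ y ∈ V, (ZMod.stdAddChar ((0 : ZMod p) * y) : ℂ)‖ ^ (2 * k) = (V.card : ℝ) ^ (2 * k) := by
    have e1 : ∑ y ∈ V, (ZMod.stdAddChar ((0 : ZMod p) * y) : ℂ) = (V.card : ℂ) := by
      simp
    rw [e1, Complex.norm_natCast]
  by_contra hcon
  push Not at hcon
  have h1 : ∑ t ∈ (univ : Finset (ZMod p)).erase 0,
      ‖∑ y ∈ V, (ZMod.stdAddChar (t * y) : ℂ)‖ ^ (2 * k) ≥ (V.card : ℝ) ^ (2 * k) := by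
    have h2 := add_sum_erase (univ : Finset (ZMod p))
      (fun t => ‖∑ y ∈ V, (ZMod.stdAddChar (t * y) : ℂ)‖ ^ (2 * k)) (mem_univ 0)
    rw [hz] at h2
    linarith
  have h3 : p * ∑ t ∈ (univ : Finset (ZMod p)).erase 0,
      ‖∑ y ∈ V, (ZMod.stdAddChar (t * y) : ℂ)‖ ^ (2 * k) ≤ (p - 1) * (V.card : ℝ) ^ (2 * k) := by
    rw [mul_sum]
    refine (sum_le_card_nsmul _ _ ((V.card : ℝ) ^ (2 * k)) fun t ht => ?_).trans (le_of_eq ?_)
    · exact (hcon t (ne_of_mem_erase ht)).le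
    · rw [card_erase_of_mem (mem_univ _), card_univ, ZMod.card, nsmul_eq_mul,
        Nat.cast_sub (by omega), Nat.cast_one]
  have h4 : (0 : ℝ) < (V.card : ℝ) ^ (2 * k) := by positivity
  nlinarith

end Pool.Agent.SPI
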