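import Pool.Agent.helper47.SPI.Spec

set_option autoImplicit false

namespace Pool.Agent.SPI

open Finset Pool.Agent.helper85.PG

/-- `Re ψ(x)`. -/
noncomputable def ZB_c {p : ℕ} [NeZero p] (x : ZMod p) : ℝ := (ZMod.stdAddChar x : ℂ).re

theorem ZB_norm {p : ℕ} [NeZero p] (x : ZMod p) : ‖(ZMod.stdAddChar x : ℂ)‖ = 1 :=
  AddChar.norm_apply _ _

theorem ZB_sq {p : ℕ} [NeZero p] (x : ZMod p) :
    (ZMod.stdAddChar x : ℂ).re ^ 2 + (ZMod.stdAddChar x : ℂ).im ^ 2 = 1 := by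
  have h1 := Complex.sq_norm (ZMod.stdAddChar x : ℂ)
  rw [ZB_norm, Complex.normSq_apply] at h1
  nlinarith

theorem ZB_neg {p : ℕ} [NeZero p] (x : ZMod p) :
    (ZMod.stdAddChar (-x) : ℂ) = (starRingEnd ℂ) (ZMod.stdAddChar x : ℂ) := by
  exact AddChar.map_neg_eq_conj _ _

theorem ZB_le {p : ℕ} [NeZero p] (x : ZMod p) : ZB_c x ≤ 1 := by
  have := ZB_sq x
  unfold ZB_c
  nlinarith [sq_nonneg ((ZMod.stdAddChar x : ℂ).im)]

theorem ZB_two {p : ℕ} [NeZero p] (x : ZMod p) : ZB_c (2 * x) = 2 * ZB_c x ^ 2 - 1 := by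
  have h := ZB_sq x
  unfold ZB_c
  rw [two_mul, AddChar.map_add_eq_mul, Complex.mul_re]
  nlinarith

theorem ZB_tri {p : ℕ} [NeZero p] (x y : ZMod p) :
    1 - ZB_c x ≤ 2 * (1 - ZB_c (y + x)) + 2 * (1 - ZB_c y) := by
  have hx := ZB_sq x
  have hy := ZB_sq y
  unfold ZB_c
  rw [AddChar.map_add_eq_mul, Complex.mul_re]
  set a := (ZMod.stdAddChar x : ℂ).re
  set b := (ZMod.stdAddChar x : ℂ).im
  set c := (ZMod.stdAddChar y : ℂ).re
  set d := (ZMod.stdAddChar y : ℂ).im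
  -- `3 - 2 (c a - d b) - 2 c + a >= 0`: it is `|1 + x - 2 conj y|^2 / 2`
  nlinarith [sq_nonneg (1 + a - 2 * c), sq_nonneg (b + 2 * d)]

theorem ZB_val {p : ℕ} [Fact p.Prime] (x : ZMod p) :
    8 * ((x.valMinAbs.natAbs : ℝ) / p) ^ 2 ≤ 1 - ZB_c x := by
  have hp : (0 : ℝ) < p := by exact_mod_cast (Fact.out : p.Prime).pos
  set j : ℤ := x.valMinAbs with hj
  have h1 : (ZMod.stdAddChar x : ℂ) = Complex.exp (2 * Real.pi * Complex.I * j / p) := by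
    have h2 : x = ((j : ℤ) : ZMod p) := by rw [hj, ZMod.coe_valMinAbs]
    rw [h2]
    exact ZMod.stdAddChar_coe j
  have h3 : ZB_c x = Real.cos (2 * Real.pi * j / p) := by
    unfold ZB_c
    rw [h1]
    have h4 : (2 * Real.pi * Complex.I * j / p : ℂ) = ((2 * Real.pi * j / p : ℝ) : ℂ) * Complex.I := by
      push_cast
      ring
    rw [h4, Complex.exp_ofReal_mul_I_re]
  have h5 : |(j : ℝ)| * 2 ≤ p := by
    have h6 := ZMod.natAbs_valMinAbs_le x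
    have h7 : x.valMinAbs.natAbs * 2 ≤ p := by omega
    have h8 : ((x.valMinAbs.natAbs : ℕ) : ℝ) * 2 ≤ p := by exact_mod_cast h7
    rwa [Nat.cast_natAbs, Int.cast_abs] at h8
  have hnat : ((x.valMinAbs.natAbs : ℕ) : ℝ) = |(j : ℝ)| := by
    rw [Nat.cast_natAbs, Int.cast_abs]
  have h9 : |2 * Real.pi * j / p| ≤ Real.pi := by
    rw [abs_div, abs_mul, abs_of_pos (by positivity : (0 : ℝ) < 2 * Real.pi), abs_of_pos hp,
      div_le_iff₀ hp]
    nlinarith [Real.pi_pos]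
  have h10 := Real.cos_le_one_sub_mul_cos_sq h9
  have hgoal : 8 * (|(j : ℝ)| / p) ^ 2 ≤ 1 - ZB_c x := by
    rw [h3, div_pow, sq_abs]
    have h11 : 2 / Real.pi ^ 2 * (2 * Real.pi * j / p) ^ 2 = 8 * ((j : ℝ) ^ 2 / p ^ 2) := by
      have := Real.pi_pos
      field_simp
      ring
    rw [h11] at h10
    linarith
  rw [← hnat] at hgoal
  exact hgoal

theorem ZB (hPKC : PKC_stmt) : ZB_stmt := by
  classical
  intro p _ d P τ t hp hP hτ0 hτ1 ht hbig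
  have hp0 : (0 : ℝ) < p := by exact_mod_cast (by omega : 0 < p)
  have hcard := (hPKC.2.2 p d P hP 2 1 (by norm_num) (by norm_num)).1
  have hcard' : ((P 2).card : ℝ) ≤ 5 ^ d * ((P 1).card : ℝ) := by
    have e1 : (1 + 2 * 2 / 1 : ℝ) = 5 := by norm_num
    rwa [e1] at hcard
  have hV0 : 0 < (P 2).card := hP.card_pos (by norm_num)
  have hV : (0 : ℝ) < ((P 2).card : ℝ) := by exact_mod_cast hV0
  have hP1 : (0 : ℝ) < ((P 1).card : ℝ) := by exact_mod_cast hP.card_pos (by norm_num)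
  -- the sum is real
  have hreal : ‖∑ y ∈ P 2, (ZMod.stdAddChar (t * y) : ℂ)‖ = |∑ y ∈ P 2, ZB_c (t * y)| := by
    have him : (∑ y ∈ P 2, (ZMod.stdAddChar (t * y) : ℂ)).im = 0 := by
      have h1 : ∑ y ∈ P 2, (ZMod.stdAddChar (t * y) : ℂ).im =
          ∑ y ∈ P 2, -(ZMod.stdAddChar (t * y) : ℂ).im := by
        refine sum_nbij' (fun y => -y) (fun y => -y) (fun y hy => hP.neg_mem hy)
          (fun y hy => hP.neg_mem hy) (fun y _ => neg_neg y) (fun y _ => neg_neg y) ?_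
        intro y _
        rw [mul_neg, ZB_neg, Complex.conj_im, neg_neg]
      rw [Complex.im_sum]
      rw [sum_neg_distrib] at h1
      linarith
    have hre : (∑ y ∈ P 2, (ZMod.stdAddChar (t * y) : ℂ)) =
        ((∑ y ∈ P 2, ZB_c (t * y) : ℝ) : ℂ) := by
      apply Complex.ext
      · rw [Complex.re_sum, Complex.ofReal_re]
        rfl
      · rw [him, Complex.ofReal_im]
    rw [hre, Complex.norm_real, Real.norm_eq_abs]
  rw [hreal] at hbig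
  -- Cauchy-Schwarz
  have hCS : (∑ y ∈ P 2, ZB_c (t * y)) ^ 2 ≤ (P 2).card * ∑ y ∈ P 2, ZB_c (t * y) ^ 2 :=
    sq_sum_le_card_mul_sum_sq
  have hsq : ((1 - τ) * ((P 2).card : ℝ)) ^ 2 ≤ (∑ y ∈ P 2, ZB_c (t * y)) ^ 2 := by
    rw [← sq_abs (∑ y ∈ P 2, ZB_c (t * y))]
    exact pow_le_pow_left₀ (mul_nonneg (by linarith) hV.le) hbig 2
  have hlow : (1 - τ) ^ 2 * ((P 2).card : ℝ) ≤ ∑ y ∈ P 2, ZB_c (t * y) ^ 2 := by
    have h1 := hsq.trans hCS
    have h2 : ((P 2).card : ℝ) * ((1 - τ) ^ 2 * ((P 2).card : ℝ)) ≤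
        ((P 2).card : ℝ) * ∑ y ∈ P 2, ZB_c (t * y) ^ 2 := by
      refine le_trans (le_of_eq ?_) h1
      ring
    exact le_of_mul_le_mul_left h2 hV
  set ζ : ZMod p := 2 * t with hζ
  have hζ0 : ζ ≠ 0 := by
    rw [hζ]
    refine mul_ne_zero ?_ ht
    intro h2
    have h3 : ((2 : ℕ) : ZMod p) = 0 := by exact_mod_cast h2
    rw [ZMod.natCast_eq_zero_iff] at h3
    have := Nat.le_of_dvd (by norm_num) h3
    omega
  have hdef : ∑ y ∈ P 2, (1 - ZB_c (ζ * y)) ≤ 4 * τ * ((P 2).card : ℝ) := by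
    have h1 : ∀ y ∈ P 2, 1 - ZB_c (ζ * y) = 2 - 2 * ZB_c (t * y) ^ 2 := by
      intro y _
      rw [hζ, mul_assoc, ZB_two]
      ring
    rw [sum_congr rfl h1, sum_sub_distrib, sum_const, nsmul_eq_mul, ← mul_sum]
    nlinarith [sq_nonneg τ]
  refine ⟨ζ, hζ0, fun y₀ hy₀ => ?_⟩
  have hsub : P 1 ⊆ P 2 := hP.mono (by norm_num)
  have hA : ∑ y ∈ P 1, (1 - ZB_c (ζ * y)) ≤ 4 * τ * ((P 2).card : ℝ) := by
    refine (sum_le_sum_of_subset_of_nonneg hsub fun y _ _ => ?_).trans hdef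
    have := ZB_le (ζ * y)
    linarith
  have hB : ∑ y ∈ P 1, (1 - ZB_c (ζ * y + ζ * y₀)) ≤ 4 * τ * ((P 2).card : ℝ) := by
    have h1 : ∑ y ∈ P 1, (1 - ZB_c (ζ * y + ζ * y₀)) =
        ∑ y ∈ (P 1).image (fun y => y + y₀), (1 - ZB_c (ζ * y)) := by
      rw [sum_image (fun a _ b _ h => add_right_cancel h)]
      refine sum_congr rfl fun y _ => ?_
      rw [mul_add]
    rw [h1]
    refine (sum_le_sum_of_subset_of_nonneg (t := P 2) ?_ fun y _ _ => ?_).trans hdef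
    · intro z hz
      obtain ⟨y, hy, rfl⟩ := mem_image.1 hz
      have h2 := hP.add_mem hy hy₀
      norm_num at h2
      exact h2
    · have := ZB_le (ζ * y)
      linarith
  have hsum : ((P 1).card : ℝ) * (1 - ZB_c (ζ * y₀)) ≤ 16 * τ * ((P 2).card : ℝ) := by
    have h1 : ((P 1).card : ℝ) * (1 - ZB_c (ζ * y₀)) = ∑ y ∈ P 1, (1 - ZB_c (ζ * y₀)) := by
      rw [sum_const, nsmul_eq_mul]
    have h2 : ∑ y ∈ P 1, (1 - ZB_c (ζ * y₀)) ≤
        ∑ y ∈ P 1, (2 * (1 - ZB_c (ζ * y + ζ * y₀)) + 2 * (1 - ZB_c (ζ * y))) :=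
      sum_le_sum fun y _ => ZB_tri _ _
    rw [sum_add_distrib, ← mul_sum, ← mul_sum] at h2
    rw [h1]
    linarith
  have hfin : 1 - ZB_c (ζ * y₀) ≤ 16 * (5 ^ d * τ) := by
    have h1 : ((P 1).card : ℝ) * (1 - ZB_c (ζ * y₀)) ≤ ((P 1).card : ℝ) * (16 * (5 ^ d * τ)) := by
      refine hsum.trans ?_
      have := mul_le_mul_of_nonneg_left hcard' (by linarith : (0 : ℝ) ≤ 16 * τ)
      linarith
    exact le_of_mul_le_mul_left h1 hP1
  have hval := ZB_val (ζ * y₀)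
  have hq : (((ζ * y₀).valMinAbs.natAbs : ℝ) / p) ^ 2 ≤ 2 * 5 ^ d * τ := by linarith
  have hs : ((ζ * y₀).valMinAbs.natAbs : ℝ) / p ≤ Real.sqrt (2 * 5 ^ d * τ) :=
    Real.le_sqrt_of_sq_le hq
  rw [div_le_iff₀ hp0] at hs
  linarith

end Pool.Agent.SPI
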